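import Pool.Agent.Helper60.HB.Skel

set_option autoImplicit false

open NumberField

namespace Pool.Agent.Helper8.HB

open Pool.Agent.Helper60.HB

theorem split_LS_sub {n : ℕ} (l : Fin n → ℂ) (μ ν : Fin n → ℤ) :
    LS l (μ - ν) = LS l μ - LS l ν := by
  unfold LS
  rw [← Finset.sum_sub_distrib]
  refine Finset.sum_congr rfl fun i _ => ?_
  rw [Pi.sub_apply]
  push_cast
  ring

/-- The subgroup of the units of `ℂ` lying in `F`. -/
def splitH (F : Subfield ℂ) : Subgroup ℂˣ where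
  carrier := {u | (u : ℂ) ∈ F}
  mul_mem' := by
    intro a b ha hb
    change ((a * b : ℂˣ) : ℂ) ∈ F
    rw [Units.val_mul]
    exact F.mul_mem ha hb
  one_mem' := by
    change ((1 : ℂˣ) : ℂ) ∈ F
    rw [Units.val_one]
    exact F.one_mem
  inv_mem' := by
    intro a ha
    change ((a⁻¹ : ℂˣ) : ℂ) ∈ F
    rw [Units.val_inv_eq_inv_val]
    exact F.inv_mem ha

theorem mem_splitH (F : Subfield ℂ) (u : ℂˣ) : u ∈ splitH F ↔ (u : ℂ) ∈ F := Iff.rfl

open Classical in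
/-- Splitting a vanishing sum of odd powers of square roots along the classes. -/
theorem split_class (hKUM : ST_KUM) (F : Subfield ℂ) {ι : Type} (s : Finset ι) (x : ι → ℂ)
    (hx0 : ∀ i, x i ≠ 0) (hx2 : ∀ i ∈ s, x i ^ 2 ∈ F) (c : ι → ℤ) (k : ℕ) (hk : Odd k)
    (hsum : ∑ i ∈ s, (c i : ℂ) * x i ^ k = 0) :
    ∑ i ∈ s.filter (fun i => x i ∈ F), (c i : ℂ) * x i ^ k = 0 := by
  obtain ⟨r, hr⟩ := hk
  let q : ι → ℂˣ ⧸ splitH F := fun i => (Units.mk0 (x i) (hx0 i) : ℂˣ)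
  let Qs : Finset (ℂˣ ⧸ splitH F) := s.image q
  let y : ℂˣ ⧸ splitH F → ℂ := fun a => ((Quotient.out a : ℂˣ) : ℂ)
  have hy0 : ∀ a, y a ≠ 0 := fun a => Units.ne_zero _
  have hmk : ∀ a : ℂˣ ⧸ splitH F, ((Quotient.out a : ℂˣ) : ℂˣ ⧸ splitH F) = a := fun a =>
    QuotientGroup.out_eq' a
  have hratio : ∀ i, (y (q i))⁻¹ * x i ∈ F := by
    intro i
    have h1 : (Quotient.out (q i) : ℂˣ)⁻¹ * Units.mk0 (x i) (hx0 i) ∈ splitH F :=
      QuotientGroup.eq.1 (hmk (q i))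
    rw [mem_splitH, Units.val_mul, Units.val_inv_eq_inv_val, Units.val_mk0] at h1
    exact h1
  have hone : ∀ i, q i = 1 ↔ x i ∈ F := by
    intro i
    rw [QuotientGroup.eq_one_iff, mem_splitH, Units.val_mk0]
  let C : ℂˣ ⧸ splitH F → ℂ := fun a =>
    ∑ i ∈ s.filter (fun i => q i = a), (c i : ℂ) * (x i ^ 2) ^ r * ((y (q i))⁻¹ * x i)
  have hCy : ∀ a, C a * y a = ∑ i ∈ s.filter (fun i => q i = a), (c i : ℂ) * x i ^ k := by
    intro a
    change (∑ i ∈ s.filter (fun i => q i = a), (c i : ℂ) * (x i ^ 2) ^ r * ((y (q i))⁻¹ * x i)) *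
      y a = _
    rw [Finset.sum_mul]
    refine Finset.sum_congr rfl fun i hi => ?_
    have hqa := (Finset.mem_filter.1 hi).2
    rw [hqa, hr, pow_succ (x i) (2 * r), pow_mul]
    have := hy0 a
    field_simp
  have key := hKUM F Qs (fun a => y a.1) (fun a => hy0 a.1) (by
      rintro ⟨a, ha⟩
      obtain ⟨i, hi, rfl⟩ := Finset.mem_image.1 ha
      change y (q i) ^ 2 ∈ F
      have h1 : y (q i) ^ 2 = x i ^ 2 * (((y (q i))⁻¹ * x i)⁻¹) ^ 2 := by
        have h2 := hy0 (q i)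
        have h3 := hx0 i
        field_simp
      rw [h1]
      exact F.mul_mem (hx2 i hi) (F.pow_mem (F.inv_mem (hratio i)) 2)) (by
      rintro ⟨a, ha⟩ ⟨b, hb⟩ hab hF
      apply hab
      apply Subtype.ext
      change a = b
      change y a / y b ∈ F at hF
      rw [← hmk a, ← hmk b]
      rw [eq_comm, QuotientGroup.eq, mem_splitH, Units.val_mul, Units.val_inv_eq_inv_val]
      rw [div_eq_inv_mul] at hF
      exact hF) (fun a => C a.1) (by
      rintro ⟨a, ha⟩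
      change C a ∈ F
      refine F.sum_mem fun i hi => ?_
      have his := (Finset.mem_filter.1 hi).1
      exact F.mul_mem (F.mul_mem (intCast_mem F _) (F.pow_mem (hx2 i his) r)) (hratio i)) (by
      change ∑ a : Qs, C a.1 * y a.1 = 0
      rw [Finset.sum_coe_sort Qs (fun a => C a * y a)]
      rw [← hsum, ← Finset.sum_fiberwise_of_maps_to (s := s) (t := Qs) (g := q)
        (fun i hi => Finset.mem_image_of_mem q hi)]
      exact Finset.sum_congr rfl fun a _ => hCy a)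
  have hfil : s.filter (fun i => x i ∈ F) = s.filter (fun i => q i = 1) :=
    Finset.filter_congr fun i _ => (hone i).symm
  rw [hfil]
  by_cases h1 : (1 : ℂˣ ⧸ splitH F) ∈ Qs
  · rw [← hCy 1]
    have := key ⟨1, h1⟩
    change C 1 = 0 at this
    rw [this, zero_mul]
  · rw [Finset.filter_eq_empty_iff.2, Finset.sum_empty]
    intro i hi hq
    apply h1
    rw [← hq]
    exact Finset.mem_image_of_mem q hi

theorem st_SPLIT (hKUM : ST_KUM) : ST_SPLIT := by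
  classical
  intro n K _ _ D L μ0 J c k hk hsum
  have hx0 : ∀ μ, EX D.l (μ - μ0) (1 / 2 ^ (J + 1)) ≠ 0 := fun μ => Complex.exp_ne_zero _
  have hsq : ∀ μ, EX D.l (μ - μ0) (1 / 2 ^ (J + 1)) ^ 2 = EX D.l (μ - μ0) (1 / 2 ^ J) := by
    intro μ
    unfold EX
    rw [← Complex.exp_nat_mul]
    congr 1
    rw [pow_succ]
    push_cast
    have : (2 : ℂ) ^ J ≠ 0 := pow_ne_zero _ two_ne_zero
    field_simp
  have hEX : ∀ μ, EX D.l μ ((k : ℂ) / 2 ^ (J + 1)) =
      EX D.l μ0 ((k : ℂ) / 2 ^ (J + 1)) * EX D.l (μ - μ0) (1 / 2 ^ (J + 1)) ^ k := by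
    intro μ
    unfold EX
    rw [← Complex.exp_nat_mul, ← Complex.exp_add, split_LS_sub]
    congr 1
    ring
  have h0 : EX D.l μ0 ((k : ℂ) / 2 ^ (J + 1)) ≠ 0 := Complex.exp_ne_zero _
  have hall : ∀ t : Finset (Fin n → ℤ),
      ∑ μ ∈ t, (c μ : ℂ) * EX D.l μ ((k : ℂ) / 2 ^ (J + 1)) =
      EX D.l μ0 ((k : ℂ) / 2 ^ (J + 1)) *
        ∑ μ ∈ t, (c μ : ℂ) * EX D.l (μ - μ0) (1 / 2 ^ (J + 1)) ^ k := by
    intro t
    rw [Finset.mul_sum]
    refine Finset.sum_congr rfl fun μ _ => ?_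
    rw [hEX μ]
    ring
  rw [hall] at hsum
  have hsum' := (mul_eq_zero.1 hsum).resolve_left h0
  have h1 := split_class hKUM D.σ.fieldRange (SU D L μ0 J)
    (fun μ => EX D.l (μ - μ0) (1 / 2 ^ (J + 1))) hx0 (by
      intro μ hμ
      rw [hsq]
      exact (Finset.mem_filter.1 hμ).2) c k hk hsum'
  rw [hall]
  have h2 : SU D L μ0 (J + 1) = (SU D L μ0 J).filter
      (fun μ => EX D.l (μ - μ0) (1 / 2 ^ (J + 1)) ∈ D.σ.fieldRange) := by
    unfold SU
    ext μ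
    simp only [Finset.mem_filter]
    constructor
    · rintro ⟨h3, h4⟩
      refine ⟨⟨h3, ?_⟩, h4⟩
      rw [← hsq]
      exact D.σ.fieldRange.pow_mem h4 2
    · rintro ⟨⟨h3, -⟩, h4⟩
      exact ⟨h3, h4⟩
  rw [h2, h1, mul_zero]

end Pool.Agent.Helper8.HB
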