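import Pool.Agent.Helper60.HB.Skel

set_option autoImplicit false

open NumberField

namespace Pool.Agent.Helper8.HB

open Pool.Agent.Helper60.HB

/-- The odd integers `1, 3, ..., 2 N - 1`. -/
def upX (N : ℕ) : Finset ℤ := (Finset.range N).image (fun j : ℕ => 2 * (j : ℤ) + 1)

theorem upX_card (N : ℕ) : (upX N).card = N := by
  unfold upX
  rw [Finset.card_image_of_injective, Finset.card_range]
  intro a b h
  simp only [] at h
  omega

theorem up_GC {n : ℕ} {b : Fin n → ℤ} {e : Fin n} {l : Fin n → ℂ} {L : Fin n → ℕ} {Zc : ℝ}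
    (hZ : ZB b e l L Zc) (m : Fin n → ℕ) {μ : Fin n → ℤ} (hμ : μ ∈ BX L) :
    |((GC b e m μ : ℤ) : ℝ)| ≤ Zc ^ (∑ i, m i) := by
  unfold GC
  rw [Int.cast_prod, Finset.abs_prod, ← Finset.prod_pow_eq_pow_sum]
  refine Finset.prod_le_prod (fun i _ => abs_nonneg _) fun i _ => ?_
  rw [Int.cast_pow, abs_pow]
  exact pow_le_pow_left₀ (abs_nonneg _) ((hZ.2 μ hμ).1 i) _

theorem up_LS {n : ℕ} {K : Type} [Field K] [NumberField K] (D : BData n K) {L : Fin n → ℕ}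
    {Lr : ℝ} (hL : ∀ i, (L i : ℝ) * D.A i ≤ Lr) {μ : Fin n → ℤ} (hμ : μ ∈ BX L) :
    ‖LS D.l μ‖ ≤ n * Lr := by
  unfold LS
  refine (norm_sum_le _ _).trans ?_
  have h1 : ∀ i ∈ (Finset.univ : Finset (Fin n)), ‖(μ i : ℂ) * D.l i‖ ≤ Lr := by
    intro i _
    have h2 := Finset.mem_Icc.1 (Fintype.mem_piFinset.1 hμ i)
    rw [norm_mul, Complex.norm_intCast]
    have h3 : |(μ i : ℝ)| ≤ (L i : ℝ) := by
      rw [abs_of_nonneg (by exact_mod_cast h2.1)]
      exact_mod_cast h2.2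
    refine le_trans (mul_le_mul h3 (D.l_le i) (norm_nonneg _) (Nat.cast_nonneg _)) (hL i)
  refine (Finset.sum_le_card_nsmul _ _ _ h1).trans ?_
  rw [Finset.card_univ, Fintype.card_fin, nsmul_eq_mul]

theorem up_EX {n : ℕ} {K : Type} [Field K] [NumberField K] (D : BData n K) {L : Fin n → ℕ}
    {Lr : ℝ} (hL : ∀ i, (L i : ℝ) * D.A i ≤ Lr) {μ : Fin n → ℤ} (hμ : μ ∈ BX L) (z : ℂ) (R : ℝ)
    (hz : ‖z‖ ≤ R) : ‖EX D.l μ z‖ ≤ Real.exp (R * (n * Lr)) := by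
  unfold EX
  rw [Complex.norm_exp]
  apply Real.exp_le_exp.2
  refine (Complex.re_le_norm _).trans ?_
  rw [norm_mul]
  exact mul_le_mul hz (up_LS D hL hμ) (norm_nonneg _) ((norm_nonneg _).trans hz)

theorem st_UP (hASL : ST_ASL) (hDERB : ST_DERB) : ST_UP := by
  intro n K _ _ D b e L p μ0 S J τ P Zc Lr m k hbe hS hS2 hτ hp hL hZ hLV hm hk
  obtain ⟨S', hS'⟩ := hS
  have hSd : S / 2 = S' := by omega
  have hP : 0 ≤ P := (abs_nonneg _).trans (hp 0)
  have hZ1 : 1 ≤ Zc := hZ.1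
  have hsub : SU D L μ0 J ⊆ BX L := by
    intro μ hμ
    classical
    exact (Finset.mem_filter.1 hμ).1
  set s := SU D L μ0 J with hs
  set N : ℕ := 2 ^ J * (S / 2) with hN
  have hNS : 2 * N = 2 ^ J * S := by
    rw [hN, hSd, hS']
    ring
  have h2J : (0 : ℝ) < 2 ^ J := by positivity
  have hrho : (1 : ℝ) ≤ 2 ^ J * S := by
    have h1 : (1 : ℝ) ≤ 2 ^ J := one_le_pow₀ (by norm_num)
    have h2 : (1 : ℝ) ≤ S := by exact_mod_cast (by omega : 1 ≤ S)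
    nlinarith
  have hnorm2 : ‖((2 : ℂ) ^ J)‖ = 2 ^ J := by
    rw [norm_pow]
    norm_num
  -- the function
  let f : ℂ → ℂ := fun w => PH b e D.l s p m (w / 2 ^ J)
  have hfdiff : Differentiable ℂ f := by
    change Differentiable ℂ fun w : ℂ => ∑ μ ∈ s, ((p μ * GC b e m μ : ℤ) : ℂ) *
      Complex.exp (w / 2 ^ J * LS D.l μ)
    refine Differentiable.fun_sum fun μ _ => ?_
    refine Differentiable.const_mul ?_ _
    refine Differentiable.cexp ?_
    exact (differentiable_id.div_const _).mul_const _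
  set δ : ℝ := ‖LS D.l b‖ * ((BX L).card * P * Zc ^ (2 * τ + 1) * τ *
    Real.exp (n * Lr * S)) with hδ
  set M : ℝ := (BX L).card * P * Zc ^ τ * Real.exp (7 * n * Lr * S) with hM
  have hδ0 : 0 ≤ δ := by
    rw [hδ]
    positivity
  have hXmem : ∀ x ∈ upX N, ∃ j : ℕ, Odd j ∧ j ≤ 2 ^ J * S ∧ x = (j : ℤ) := by
    intro x hx
    obtain ⟨j, hj, rfl⟩ := Finset.mem_image.1 hx
    rw [Finset.mem_range] at hj
    refine ⟨2 * j + 1, ⟨j, rfl⟩, by omega, by push_cast; ring⟩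
  have hX2 : ∀ x ∈ upX N, ∀ y ∈ upX N, x ≠ y → 2 ≤ |x - y| := by
    intro x hx y hy hxy
    obtain ⟨i, hi, rfl⟩ := Finset.mem_image.1 hx
    obtain ⟨j, hj, rfl⟩ := Finset.mem_image.1 hy
    rcases lt_trichotomy i j with h | h | h
    · rw [abs_of_neg (by omega)]
      omega
    · exact absurd (by rw [h]) hxy
    · rw [abs_of_pos (by omega)]
      omega
  have hXρ : ∀ x ∈ upX N, |(x : ℝ)| ≤ 2 ^ J * S := by
    intro x hx
    obtain ⟨j, -, hj, rfl⟩ := hXmem x hx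
    rw [Int.cast_natCast, abs_of_nonneg (Nat.cast_nonneg _)]
    exact_mod_cast hj
  have hder : ∀ x ∈ upX N, ∀ i < τ, ‖iteratedDeriv i f (x : ℂ)‖ ≤ δ := by
    intro x hx i hi
    obtain ⟨j, hodd, hj, rfl⟩ := hXmem x hx
    refine hDERB n b e D.l L s p J τ P Zc (n * Lr * S) m _ i hbe hsub hZ hP hp hm hi ?_ ?_
    · intro m' hm'
      rw [Int.cast_natCast]
      exact hLV m' hm' j hodd hj
    · intro μ hμ
      rw [Int.cast_natCast]
      have h1 : ‖((j : ℂ) / 2 ^ J)‖ ≤ S := by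
        rw [norm_div, hnorm2, Complex.norm_natCast, div_le_iff₀ h2J]
        have h2 : (j : ℝ) ≤ 2 ^ J * S := by exact_mod_cast hj
        linarith
      have h3 := up_EX D hL (hsub hμ) _ _ h1
      have h4 : (n : ℝ) * Lr * S = S * (n * Lr) := by ring
      rw [h4]
      exact h3
  have hmax : ∀ w : ℂ, ‖w‖ = 7 * (2 ^ J * S) → ‖f w‖ ≤ M := by
    intro w hw
    change ‖∑ μ ∈ s, ((p μ * GC b e m μ : ℤ) : ℂ) * EX D.l μ (w / 2 ^ J)‖ ≤ M
    refine (norm_sum_le _ _).trans ?_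
    have h1 : ∀ μ ∈ s, ‖((p μ * GC b e m μ : ℤ) : ℂ) * EX D.l μ (w / 2 ^ J)‖ ≤
        P * Zc ^ τ * Real.exp (7 * n * Lr * S) := by
      intro μ hμ
      rw [norm_mul, Complex.norm_intCast, Int.cast_mul, abs_mul]
      have h2 : |((GC b e m μ : ℤ) : ℝ)| ≤ Zc ^ τ :=
        (up_GC hZ m (hsub hμ)).trans (pow_le_pow_right₀ hZ1 hm.le)
      have h3 : ‖w / 2 ^ J‖ ≤ 7 * S := by
        rw [norm_div, hnorm2, div_le_iff₀ h2J, hw]
        linarith
      have h4 := up_EX D hL (hsub hμ) _ _ h3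
      have h5 : (7 : ℝ) * n * Lr * S = 7 * S * (n * Lr) := by ring
      rw [h5]
      exact mul_le_mul (mul_le_mul (hp μ) h2 (abs_nonneg _) hP) h4 (norm_nonneg _)
        (by positivity)
    refine (Finset.sum_le_card_nsmul _ _ _ h1).trans ?_
    rw [nsmul_eq_mul, hM]
    have h6 : (s.card : ℝ) ≤ (BX L).card := by exact_mod_cast Finset.card_le_card hsub
    have h7 : 0 ≤ P * Zc ^ τ * Real.exp (7 * n * Lr * S) := by positivity
    calc (s.card : ℝ) * (P * Zc ^ τ * Real.exp (7 * n * Lr * S))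
        ≤ (BX L).card * (P * Zc ^ τ * Real.exp (7 * n * Lr * S)) :=
          mul_le_mul_of_nonneg_right h6 h7
      _ = _ := by ring
  have hz0 : ‖((k : ℂ) / 2)‖ ≤ 2 ^ J * S := by
    rw [norm_div, Complex.norm_natCast]
    have h1 : (k : ℝ) ≤ 2 ^ (J + 1) * S := by exact_mod_cast hk
    rw [pow_succ] at h1
    have h2 : ‖(2 : ℂ)‖ = 2 := by norm_num
    rw [h2]
    linarith
  have h := hASL f (upX N) τ (2 ^ J * S) M δ ((k : ℂ) / 2) hfdiff hrho hδ0 hX2 hXρ hder hmax hz0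
  rw [upX_card] at h
  have hf0 : f ((k : ℂ) / 2) = PH b e D.l s p m ((k : ℂ) / 2 ^ (J + 1)) := by
    change PH b e D.l s p m ((k : ℂ) / 2 / 2 ^ J) = _
    rw [div_div, pow_succ, mul_comm (2 : ℂ)]
  rw [hf0] at h
  refine h.trans (le_of_eq ?_)
  clear_value N
  rw [hδ, Nat.cast_mul N τ]
  ring

end Pool.Agent.Helper8.HB
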